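import Pool.Agent.Helper61.QS.GoalsG

/-!
# Project QS (MP_0ebdb3_gt), packet BX: the base metric in polar coordinates
-/

set_option autoImplicit false

open Set Filter Topology

namespace Pool.Agent.Helper24.QS

open Pool.Agent.Helper61.QS

/-- Flipping is smooth. -/
theorem contDiff_flip {F G : Type*}
    [NormedAddCommGroup F] [NormedSpace ℝ F] [NormedAddCommGroup G] [NormedSpace ℝ G]
    {n : WithTop ℕ∞} : ContDiff ℝ n fun B : G →L[ℝ] F →L[ℝ] ℝ => B.flip := by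
  let L : (G →L[ℝ] F →L[ℝ] ℝ) →L[ℝ] (F →L[ℝ] G →L[ℝ] ℝ) :=
    (ContinuousLinearMap.flipₗᵢ ℝ G F ℝ).toContinuousLinearEquiv.toContinuousLinearMap
  exact ContinuousLinearMap.contDiff (𝕜 := ℝ) (E := G →L[ℝ] F →L[ℝ] ℝ)
    (F := F →L[ℝ] G →L[ℝ] ℝ) L

/-- `x ↦ A(x)(D₁(x) ·)(D₂(x) ·)` is as smooth as `A`, `D₁`, `D₂`. -/
theorem contDiff_bilinearComp {E F G : Type*} [NormedAddCommGroup E] [NormedSpace ℝ E]
    [NormedAddCommGroup F] [NormedSpace ℝ F] [NormedAddCommGroup G] [NormedSpace ℝ G]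
    {n : WithTop ℕ∞} {A : E → F →L[ℝ] F →L[ℝ] ℝ} {D₁ D₂ : E → G →L[ℝ] F}
    (hA : ContDiff ℝ n A) (h₁ : ContDiff ℝ n D₁) (h₂ : ContDiff ℝ n D₂) :
    ContDiff ℝ n fun x => (A x).bilinearComp (D₁ x) (D₂ x) := by
  have e1 : ContDiff ℝ n fun x => (A x).comp (D₁ x) := hA.clm_comp h₁
  have e2 : ContDiff ℝ n fun x => ((A x).comp (D₁ x)).flip := contDiff_flip.comp e1
  have e3 : ContDiff ℝ n fun x => (((A x).comp (D₁ x)).flip).comp (D₂ x) := e2.clm_comp h₂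
  have e4 : ContDiff ℝ n fun x => ((((A x).comp (D₁ x)).flip).comp (D₂ x)).flip :=
    contDiff_flip.comp e3
  exact e4

theorem gB_apply' (gM : W → W →L[ℝ] W →L[ℝ] ℝ) (p : R4 → W) (x u v : R4) :
    gB gM p x u v = gM (p x) (fderiv ℝ p x u) (fderiv ℝ p x v) := rfl

/-- **G-BX** -/
theorem goalBX (hPL : G_PL) (hG3 : G_G3) : G_BX := by
  intro m gM h
  obtain ⟨hp, hX, hT, -, htr⟩ := hPL
  have hD : ContDiff ℝ 2 (fderiv ℝ pol) := hp.fderiv_right (by norm_num)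
  have hC : ContDiff ℝ 2 (gB gM pol) :=
    contDiff_bilinearComp ((h.smooth.comp hp).of_le (by norm_num)) hD hD
  have hpos : ∀ x ∈ Reg, ∀ u, u ≠ 0 → 0 < gB gM pol x u u := by
    intro x hx u hu
    rw [gB_apply']
    exact h.pos _ (hX x) _ (hT x u) fun τ hτ => hu (htr m x hx u τ hτ)
  refine ⟨hC, fun x u v => ?_, hpos, fun x hx => ?_⟩
  · rw [gB_apply', gB_apply']
    exact h.symm _ (hX x) _ (hT x u) _ (hT x v)
  · exact hG3 _ x (hC.contDiffAt.differentiableAt (by norm_num)) (hpos x hx) _ _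

end Pool.Agent.Helper24.QS
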