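import Pool.Agent.Helper61.QS.GoalsC

/-!
# Project QS (MP_0ebdb3_gt), packet CP
-/

set_option autoImplicit false

open Set NormedSpace

namespace Pool.Agent.Helper24.QS

open Pool.Agent.Helper61.QS

theorem comm_poly {k : ℕ} {seg : En k → ℝ → En k} (hseg : IsSeg seg) {b : En k}
    (hb : b ∈ unitary (En k)) (hb1 : ‖b - 1‖ ≤ 1) (N : ℕ) (t : ℝ) (x : En k) (hx : x * b = b * x) :
    x * poly seg (fun _ : Fin N => b) t = poly seg (fun _ : Fin N => b) t * x := by
  have h : Commute x (poly seg (fun _ : Fin N => b) t) := by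
    unfold poly
    apply Commute.list_prod_right
    intro y hy
    rw [List.mem_ofFn] at hy
    obtain ⟨i, rfl⟩ := hy
    exact (hseg.1 b hb (by linarith)).2.2.2 _ x hx
  exact h

theorem goalCP (hSEG : G_SEG) (hCPB : G_CPB) : G_CP := by
  intro k S p hp h0
  obtain ⟨seg, hseg⟩ := hSEG k
  obtain ⟨N, b, hb, hb1, _, hq⟩ := hCPB k S seg hseg p hp h0
  exact ⟨b, poly seg (fun _ : Fin N => b), hb, hq, fun t _ x hx =>
    comm_poly hseg hb.1 hb1 N t x hx⟩

end Pool.Agent.Helper24.QS
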