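import Pool.Agent.Helper61.QS.GoalsG

/-!
# Project QS (MP_0ebdb3_gt), packet G1: second derivative of a product of two vanishing factors
-/

set_option autoImplicit false

open Set Filter Topology

namespace Pool.Agent.Helper24.QS

open Pool.Agent.Helper61.QS

section

variable {F E : Type} [NormedAddCommGroup F] [NormedSpace ℝ F] [NormedAddCommGroup E]
  [NormedSpace ℝ E]

/-- The product rule for `γ(P, Q)`. -/
theorem diff_tri {γ : F → E →L[ℝ] E →L[ℝ] ℝ} {P Q : F → E} {y : F}
    (hγ : DifferentiableAt ℝ γ y) (hP : DifferentiableAt ℝ P y) (hQ : DifferentiableAt ℝ Q y) :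
    DifferentiableAt ℝ (fun y => γ y (P y) (Q y)) y ∧
    ∀ b, fderiv ℝ (fun y => γ y (P y) (Q y)) y b =
      (fderiv ℝ γ y b) (P y) (Q y) + γ y (fderiv ℝ P y b) (Q y) +
        γ y (P y) (fderiv ℝ Q y b) := by
  have h1 := hγ.hasFDerivAt.clm_apply hP.hasFDerivAt
  have h2 := h1.clm_apply hQ.hasFDerivAt
  refine ⟨h2.differentiableAt, fun b => ?_⟩
  rw [h2.fderiv]
  simp only [add_apply, ContinuousLinearMap.comp_apply,
    ContinuousLinearMap.flip_apply]
  ring

theorem diff_fderiv {H : Type} [NormedAddCommGroup H] [NormedSpace ℝ H] {f : F → H} {z : F}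
    (hf : ContDiffAt ℝ 2 f z) (b : F) : DifferentiableAt ℝ (fun y => fderiv ℝ f y b) z := by
  have h1 : ContDiffAt ℝ 1 (fderiv ℝ f) z := hf.fderiv_right (by norm_num)
  exact (h1.differentiableAt (by norm_num)).clm_apply (differentiableAt_const b)

theorem ev_diff {H : Type} [NormedAddCommGroup H] [NormedSpace ℝ H] {f : F → H} {z : F}
    (hf : ContDiffAt ℝ 2 f z) : ∀ᶠ y in 𝓝 z, DifferentiableAt ℝ f y := by
  have h1 := hf.eventually (by simp)
  filter_upwards [h1] with y hy
  exact hy.differentiableAt (by norm_num)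

end

theorem goalG1 : G_G1 := by
  intro F E _ _ _ _ γ P Q z hγ hP hQ hP0 hQ0
  have dγ := hγ.differentiableAt (by norm_num)
  have dP := hP.differentiableAt (by norm_num)
  have dQ := hQ.differentiableAt (by norm_num)
  refine ⟨fun a => ?_, fun a b => ?_⟩
  · rw [(diff_tri dγ dP dQ).2 a, hP0, hQ0]
    simp
  · have h1 : (fun y => fderiv ℝ (fun y => γ y (P y) (Q y)) y b) =ᶠ[𝓝 z]
        fun y => (fderiv ℝ γ y b) (P y) (Q y) + γ y (fderiv ℝ P y b) (Q y) +
          γ y (P y) (fderiv ℝ Q y b) := by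
      filter_upwards [ev_diff hγ, ev_diff hP, ev_diff hQ] with y h1 h2 h3
      exact (diff_tri h1 h2 h3).2 b
    have t1 := diff_tri (diff_fderiv hγ b) dP dQ
    have t2 := diff_tri dγ (diff_fderiv hP b) dQ
    have t3 := diff_tri dγ dP (diff_fderiv hQ b)
    unfold dd
    rw [h1.fderiv_eq,
      ((t1.1.hasFDerivAt.fun_add t2.1.hasFDerivAt).fun_add t3.1.hasFDerivAt).fderiv]
    rw [add_apply, add_apply, t1.2 a, t2.2 a, t3.2 a, hP0, hQ0]
    simp only [map_zero, ContinuousLinearMap.zero_apply, zero_add, add_zero]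
    ring

end Pool.Agent.Helper24.QS
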