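import Pool.Agent.Helper61.QS.GoalsC

/-!
# Project QS (MP_0ebdb3_gt), packet PER: periodic extension of a homotopy
-/

set_option autoImplicit false

open Set

namespace Pool.Agent.Helper24.QS

open Pool.Agent.Helper61.QS

theorem goalPER : G_PER := by
  intro k H hH hp
  let f : Icc (0 : ℝ) 1 → ℝ → En k := fun s t => H s.1 t
  have hf : ContinuousOn (Function.uncurry f) (univ ×ˢ Icc (0 : ℝ) 1) := by
    have h1 : Continuous (fun z : Icc (0 : ℝ) 1 × ℝ => ((z.1 : ℝ), z.2)) := by fun_prop
    exact hH.comp h1.continuousOn (fun z hz => ⟨z.1.2, hz.2⟩)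
  have hc : Continuous fun st : Icc (0 : ℝ) 1 × ℝ => f st.1 (Int.fract st.2) :=
    hf.comp_fract' fun s => hp s.1 s.2
  rw [continuousOn_iff_continuous_restrict]
  have h2 : Continuous (fun z : ↥(Icc (0 : ℝ) 1 ×ˢ (univ : Set ℝ)) =>
      ((⟨z.1.1, z.2.1⟩ : Icc (0 : ℝ) 1), z.1.2 / (2 * Real.pi))) := by
    refine Continuous.prodMk ?_ ?_
    · exact Continuous.subtype_mk (continuous_fst.comp continuous_subtype_val) _
    · exact (continuous_snd.comp continuous_subtype_val).div_const _
  exact hc.comp h2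

end Pool.Agent.Helper24.QS
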